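import Mathlib

set_option autoImplicit false

namespace Pool.Agent.Results.MP_6750b5_co.BipartiteNotNested

open Finset

open Classical in
/-- The 0/1 weight function of a graph given by its adjacency relation (loops allowed). -/
noncomputable def wt {n : ℕ} (adj : Fin n → Fin n → Prop) (a b : Fin n) : ℝ :=
  if adj a b then 1 else 0

/-- The vertices of the `k`-th symmetric tensor power: nondecreasing tuples in `[n]^k`. -/
def Tup (n k : ℕ) : Type := {i : Fin k → Fin n // Monotone i}

/-- `mult i ℓ` is the number of entries of the tuple `i` equal to `ℓ`. -/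
def mult {n k : ℕ} (i : Fin k → Fin n) (ℓ : Fin n) : ℕ :=
  (univ.filter (fun t => i t = ℓ)).card

/-- The multinomial coefficient `k!/(m_1! ... m_n!)`. -/
noncomputable def multi {n k : ℕ} (i : Fin k → Fin n) : ℝ :=
  (k.factorial : ℝ) / ∏ ℓ : Fin n, ((mult i ℓ).factorial : ℝ)

/-- The set of all rearrangements of a tuple. -/
def orb {n k : ℕ} (i : Fin k → Fin n) : Finset (Fin k → Fin n) :=
  univ.filter (fun p => ∃ σ : Equiv.Perm (Fin k), p = i ∘ σ)

/-- The edge weights of the `k`-th symmetric tensor power. -/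
noncomputable def powWt {n : ℕ} (adj : Fin n → Fin n → Prop) (k : ℕ) (i j : Tup n k) : ℝ :=
  (multi i.1 * multi j.1) ^ (-(1 / 2) : ℝ) *
    ∑ p ∈ orb i.1, ∑ q ∈ orb j.1, ∏ t : Fin k, wt adj (p t) (q t)

/-- `H` (weights `w`) is a weighted subgraph of `H'` (weights `w'`). -/
def IsWeightedSubgraph {V V' : Type} (w : V → V → ℝ) (w' : V' → V' → ℝ) : Prop :=
  ∃ φ : V → V', Function.Injective φ ∧ ∀ x y, w x y ≤ w' (φ x) (φ y)

lemma multi_pos {n k : ℕ} (i : Fin k → Fin n) : 0 < multi i := by
  unfold multi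
  have h1 : (0 : ℝ) < (k.factorial : ℝ) := by exact_mod_cast Nat.factorial_pos k
  have h2 : (0 : ℝ) < ∏ ℓ : Fin n, ((mult i ℓ).factorial : ℝ) :=
    prod_pos fun ℓ _ => by exact_mod_cast Nat.factorial_pos _
  positivity

lemma wt_nonneg {n : ℕ} (adj : Fin n → Fin n → Prop) (a b : Fin n) : 0 ≤ wt adj a b := by
  unfold wt
  split_ifs <;> norm_num

/-- Even powers of a graph with an edge have a loop of positive weight. -/
lemma even_loop {n h : ℕ} (adj : Fin n → Fin n → Prop) (hsymm : ∀ a b, adj a b → adj b a)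
    (a b : Fin n) (hab : adj a b) (hlt : a < b) :
    ∃ i : Tup n (2 * h), 0 < powWt adj (2 * h) i i := by
  let f : Fin (2 * h) → Fin n := fun t => if (t : ℕ) < h then a else b
  have hf : Monotone f := by
    intro s t hst
    simp only [f]
    have hst' : (s : ℕ) ≤ t := hst
    split_ifs
    · exact le_rfl
    · exact hlt.le
    · omega
    · exact le_rfl
  refine ⟨⟨f, hf⟩, ?_⟩
  unfold powWt
  refine mul_pos (Real.rpow_pos_of_pos (mul_pos (multi_pos _) (multi_pos _)) _) ?_
  have hmem : f ∈ orb f := by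
    unfold orb
    rw [mem_filter]
    exact ⟨mem_univ _, 1, rfl⟩
  have hmem' : f ∘ Fin.revPerm ∈ orb f := by
    unfold orb
    rw [mem_filter]
    exact ⟨mem_univ _, Fin.revPerm, rfl⟩
  have hnn : ∀ p q : Fin (2 * h) → Fin n, 0 ≤ ∏ t, wt adj (p t) (q t) :=
    fun p q => prod_nonneg fun t _ => wt_nonneg _ _ _
  refine sum_pos' (fun p _ => sum_nonneg fun q _ => hnn p q) ⟨f, hmem, ?_⟩
  refine sum_pos' (fun q _ => hnn f q) ⟨f ∘ Fin.revPerm, hmem', ?_⟩
  refine prod_pos fun t _ => ?_
  have hval : ((Fin.revPerm t : Fin (2 * h)) : ℕ) = 2 * h - (t + 1) := by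
    simp [Fin.revPerm]
  have : adj (f t) ((f ∘ Fin.revPerm) t) := by
    simp only [f, Function.comp_apply, hval]
    have ht := t.2
    by_cases h1 : (t : ℕ) < h
    · have h2 : ¬ (2 * h - ((t : ℕ) + 1) < h) := by omega
      rw [if_pos h1, if_neg h2]
      exact hab
    · have h2 : (2 * h - ((t : ℕ) + 1) < h) := by omega
      rw [if_neg h1, if_pos h2]
      exact hsymm _ _ hab
  unfold wt
  rw [if_pos this]
  norm_num

/-- Odd powers of a bipartite graph have no loop. -/
lemma odd_no_loop {n r : ℕ} (hr : Odd r) (adj : Fin n → Fin n → Prop)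
    (c : Fin n → Bool) (hc : ∀ a b, adj a b → c a ≠ c b) (x : Tup n r) :
    powWt adj r x x = 0 := by
  unfold powWt
  rw [mul_eq_zero]
  right
  refine sum_eq_zero fun p hp => sum_eq_zero fun q hq => ?_
  unfold orb at hp hq
  rw [mem_filter] at hp hq
  obtain ⟨_, σ, rfl⟩ := hp
  obtain ⟨_, τ, rfl⟩ := hq
  by_contra hne
  rw [← ne_eq, prod_ne_zero_iff] at hne
  have hadj : ∀ t, c (x.1 (σ t)) ≠ c (x.1 (τ t)) := by
    intro t
    have := hne t (mem_univ t)
    unfold wt at this
    by_contra heq
    apply this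
    rw [if_neg]
    intro ha
    exact hc _ _ ha heq
  -- counting
  have e1 : (univ.filter (fun t => c (x.1 (σ t)) = true)).card =
      (univ.filter (fun s => c (x.1 s) = true)).card := by
    refine card_equiv σ fun t => ?_
    simp
  have e2 : (univ.filter (fun t => c (x.1 (τ t)) = true)).card =
      (univ.filter (fun s => c (x.1 s) = true)).card := by
    refine card_equiv τ fun t => ?_
    simp
  have e3 : (univ.filter (fun t => c (x.1 (τ t)) = true)) =
      (univ.filter (fun t => ¬ (c (x.1 (σ t)) = true))) := by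
    refine filter_congr fun t _ => ?_
    have := hadj t
    cases h1 : c (x.1 (σ t)) <;> cases h2 : c (x.1 (τ t)) <;> simp_all
  have e4 := card_filter_add_card_filter_not (s := (univ : Finset (Fin r)))
    (fun t => c (x.1 (σ t)) = true)
  rw [← e3, e1, e2, card_univ, Fintype.card_fin] at e4
  obtain ⟨m, hm⟩ := hr
  omega

/-- **Result.** First part: for every bipartite graph with at least one edge, every even `k` and
every odd `r`, the `k`-th symmetric tensor power is not a weighted subgraph of the `r`-th one.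
Second part: hence the statement asked in Q1 is false. -/
theorem result :
    (∀ (n : ℕ) (adj : Fin n → Fin n → Prop), (∀ a b, adj a b → adj b a) →
      (∃ c : Fin n → Bool, ∀ a b, adj a b → c a ≠ c b) → (∃ a b, adj a b) →
      ∀ k r : ℕ, Even k → Odd r →
        ¬ IsWeightedSubgraph (powWt adj k) (powWt adj r)) ∧
    ¬ (∀ (n : ℕ) (adj : Fin n → Fin n → Prop), (∀ a b, adj a b → adj b a) →
      ∀ k r : ℕ, 1 ≤ k → k ≤ r →
        IsWeightedSubgraph (powWt adj k) (powWt adj r)) := by
  have h1 : (∀ (n : ℕ) (adj : Fin n → Fin n → Prop), (∀ a b, adj a b → adj b a) →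
      (∃ c : Fin n → Bool, ∀ a b, adj a b → c a ≠ c b) → (∃ a b, adj a b) →
      ∀ k r : ℕ, Even k → Odd r →
        ¬ IsWeightedSubgraph (powWt adj k) (powWt adj r)) := by
    rintro n adj hsymm ⟨c, hc⟩ ⟨a, b, hab⟩ k r hk hr ⟨φ, -, hφ⟩
    obtain ⟨h, hh⟩ := hk
    have hk2 : k = 2 * h := by omega
    subst hk2
    have hne : a ≠ b := fun h => hc a b hab (by rw [h])
    have hex : ∃ i : Tup n (2 * h), 0 < powWt adj (2 * h) i i := by
      rcases lt_or_gt_of_ne hne with hlt | hlt
      · exact even_loop adj hsymm a b hab hlt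
      · exact even_loop adj hsymm b a (hsymm _ _ hab) hlt
    obtain ⟨i, hi⟩ := hex
    have := hφ i i
    rw [odd_no_loop hr adj c hc (φ i)] at this
    linarith
  refine ⟨h1, fun hall => ?_⟩
  refine h1 2 (fun a b => a ≠ b) (fun a b h => h.symm) ⟨fun a => decide (a = 0), ?_⟩
    ⟨0, 1, by decide⟩ 2 3 (by decide) (by decide)
    (hall 2 (fun a b => a ≠ b) (fun a b h => h.symm) 2 3 (by norm_num) (by norm_num))
  intro a b hab
  fin_cases a <;> fin_cases b <;> simp_all

end Pool.Agent.Results.MP_6750b5_co.BipartiteNotNested
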